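import Pool.Agent.TH824.BK.Mats

open Polynomial IsDedekindDomain Matrix MeasureTheory
open scoped WithZero RestrictedProduct

noncomputable section
namespace TH129.BK
open TH824.BK
set_option linter.unusedSectionVars false

lemma v_algInf (x : Kx) :
    Valued.v (algebraMap Kx Kinf x) = RatFunc.inftyValuationDef (ZMod 2) x := by
  rw [RatFunc.valuedCompletionAtInfty.def]
  exact Valued.extensionValuation_apply_coe (hv := RatFunc.inftyValued (ZMod 2)) x

lemma v_poly_ne (p : Rx) (hp : p ≠ 0) :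
    Valued.v (algebraMap Kx Kinf (algebraMap Rx Kx p)) = WithZero.exp (p.natDegree : ℤ) := by
  rw [v_algInf, RatFunc.inftyValuation.polynomial _ hp]

lemma poly_eq_zero_of_lt (p : Rx) (h : Valued.v (algebraMap Kx Kinf (algebraMap Rx Kx p)) < 1) :
    p = 0 := by
  by_contra hp
  rw [v_poly_ne p hp, ← WithZero.exp_zero, WithZero.exp_lt_exp] at h
  omega

/-- the embedding of polynomials -/
def emb : Rx →+* Kinf := (algebraMap Kx Kinf).comp (algebraMap Rx Kx)

lemma emb_lt (p : Rx) (h : Valued.v (emb p) < 1) : p = 0 := poly_eq_zero_of_lt p h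

section gen
variable {F : Type} [Field F] [Valued F ℤᵐ⁰]

lemma GL_ext2 {g h : GL (Fin 2) F} (h00 : (g : Matrix (Fin 2) (Fin 2) F) 0 0 = (h : Matrix (Fin 2) (Fin 2) F) 0 0)
    (h01 : (g : Matrix (Fin 2) (Fin 2) F) 0 1 = (h : Matrix (Fin 2) (Fin 2) F) 0 1)
    (h10 : (g : Matrix (Fin 2) (Fin 2) F) 1 0 = (h : Matrix (Fin 2) (Fin 2) F) 1 0)
    (h11 : (g : Matrix (Fin 2) (Fin 2) F) 1 1 = (h : Matrix (Fin 2) (Fin 2) F) 1 1) : g = h := by
  apply Units.ext
  ext i j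
  fin_cases i <;> fin_cases j <;> assumption

/-- the lower unipotent matrix -/
def lmat (y : F) : GL (Fin 2) F :=
  ⟨!![1, 0; y, 1], !![1, 0; -y, 1], by simp [Matrix.one_fin_two], by simp [Matrix.one_fin_two]⟩

lemma coe_lmat (y : F) : ((lmat y : GL (Fin 2) F) : Matrix (Fin 2) (Fin 2) F) =
    !![1, 0; y, 1] := rfl

lemma lmat_mem {y : F} (hy : Valued.v y ≤ 1) : lmat y ∈ GO F := by
  refine ⟨fun i j => ?_, by simp [coe_lmat]⟩
  fin_cases i <;> fin_cases j <;> simp [coe_lmat, hy]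

lemma nmat_mem {y : F} (hy : Valued.v y ≤ 1) : nmat y ∈ GO F := by
  refine ⟨fun i j => ?_, by simp⟩
  fin_cases i <;> fin_cases j <;> simp [hy]

lemma smat_mem : (smat : GL (Fin 2) F) ∈ GO F := by
  refine ⟨fun i j => ?_, by simp⟩
  fin_cases i <;> fin_cases j <;> simp

lemma amat_mem {y : Fˣ} (hy : Valued.v (y : F) = 1) : amat y ∈ GO F := by
  refine ⟨fun i j => ?_, by simp [hy]⟩
  fin_cases i <;> fin_cases j <;> simp [hy]

lemma zmat_comm (z : Fˣ) (g : GL (Fin 2) F) : zmat z * g = g * zmat z := by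
  apply GL_ext2 <;> simp [Matrix.mul_apply, Fin.sum_univ_two, mul_comm]

lemma zmat_mul (z z' : Fˣ) : (zmat z * zmat z' : GL (Fin 2) F) = zmat (z * z') := by
  apply GL_ext2 <;> simp [Matrix.mul_apply, Fin.sum_univ_two]

lemma amat_mul (z z' : Fˣ) : (amat z * amat z' : GL (Fin 2) F) = amat (z * z') := by
  apply GL_ext2 <;> simp [Matrix.mul_apply, Fin.sum_univ_two]

/-- Iwasawa decomposition -/
lemma iwasawa (g : GL (Fin 2) F) : ∃ (a d : Fˣ) (x : F), ∃ k ∈ GO F, g = bmat a d x * k := by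
  have main : ∀ g : GL (Fin 2) F, Valued.v ((g : Matrix (Fin 2) (Fin 2) F) 1 0) ≤
      Valued.v ((g : Matrix (Fin 2) (Fin 2) F) 1 1) →
      ∃ (a d : Fˣ) (x : F), ∃ k ∈ GO F, g = bmat a d x * k := by
    intro g hg
    set M := (g : Matrix (Fin 2) (Fin 2) F) with hM
    have hdet : M.det ≠ 0 := g.det.ne_zero
    have hd : M 1 1 ≠ 0 := by
      intro h
      rw [h, map_zero, le_zero_iff, map_eq_zero] at hg
      apply hdet
      rw [Matrix.det_fin_two, h, hg]; ring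
    have hy : Valued.v (-(M 1 0 / M 1 1)) ≤ 1 := by
      rw [Valuation.map_neg, map_div₀]
      exact div_le_one_of_le₀ hg zero_le
    refine ⟨Units.mk0 (M.det / M 1 1) (div_ne_zero hdet hd), Units.mk0 (M 1 1) hd, M 0 1,
      (lmat (-(M 1 0 / M 1 1)))⁻¹, (GO F).inv_mem (lmat_mem hy), ?_⟩
    rw [eq_mul_inv_iff_mul_eq]
    apply GL_ext2
    · simp only [Units.val_mul, coe_lmat, coe_bmat, Matrix.mul_apply, Fin.sum_univ_two, ← hM]
      simp [Matrix.det_fin_two]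
      field_simp
      ring
    · simp [Matrix.mul_apply, Fin.sum_univ_two, coe_lmat, ← hM]
    · simp only [Units.val_mul, coe_lmat, coe_bmat, Matrix.mul_apply, Fin.sum_univ_two, ← hM]
      simp
      field_simp
      ring
    · simp [Matrix.mul_apply, Fin.sum_univ_two, coe_lmat, ← hM]
  by_cases h : Valued.v ((g : Matrix (Fin 2) (Fin 2) F) 1 0) ≤
      Valued.v ((g : Matrix (Fin 2) (Fin 2) F) 1 1)
  · exact main g h
  · obtain ⟨a, d, x, k, hk, e⟩ := main (g * smat) (by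
      simp only [Units.val_mul, coe_smat, Matrix.mul_apply, Fin.sum_univ_two]
      simpa using (not_le.mp h).le)
    refine ⟨a, d, x, k * smat⁻¹, (GO F).mul_mem hk ((GO F).inv_mem smat_mem), ?_⟩
    rw [← mul_assoc, ← e]; group

lemma bmat_eq (a d : Fˣ) (x : F) :
    bmat a d x = nmat (x / d) * amat (a / d) * zmat d := by
  apply GL_ext2 <;> simp [Matrix.mul_apply, Fin.sum_univ_two]

end gen


/-- the map on `GL_2` -/
abbrev Phi : GL (Fin 2) Rx →* GL (Fin 2) Kinf :=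
  Matrix.GeneralLinearGroup.map ((algebraMap Kx Kinf).comp (algebraMap Rx Kx))

/-- the conclusion of `half_line` -/
def Good (g : GL (Fin 2) Kinf) : Prop :=
  ∃ γ : GL (Fin 2) Rx, ∃ n : ℕ, ∃ k ∈ GO Kinf, ∃ z : Kinfˣ,
    g = Phi γ * amat (pinf⁻¹ ^ n) * k * zmat z

lemma Good.left (γ : GL (Fin 2) Rx) {g : GL (Fin 2) Kinf} (h : Good g) : Good (Phi γ * g) := by
  obtain ⟨γ', n, k, hk, z, e⟩ := h
  refine ⟨γ * γ', n, k, hk, z, ?_⟩
  rw [e, map_mul]; simp only [mul_assoc]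

lemma Good.left_iff (γ : GL (Fin 2) Rx) {g : GL (Fin 2) Kinf} (h : Good (Phi γ * g)) : Good g := by
  have := Good.left γ⁻¹ h
  rwa [← mul_assoc, ← map_mul, inv_mul_cancel, map_one, one_mul] at this

lemma Good.right {g k : GL (Fin 2) Kinf} (h : Good g) (hk : k ∈ GO Kinf) : Good (g * k) := by
  obtain ⟨γ', n, k', hk', z, e⟩ := h
  refine ⟨γ', n, k' * k, (GO Kinf).mul_mem hk' hk, z, ?_⟩
  rw [e, mul_assoc _ (zmat z) k, zmat_comm z k]; simp only [mul_assoc]

lemma Good.scal {g : GL (Fin 2) Kinf} (h : Good g) (z : Kinfˣ) : Good (g * zmat z) := by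
  obtain ⟨γ', n, k', hk', z', e⟩ := h
  refine ⟨γ', n, k', hk', z' * z, ?_⟩
  rw [e, ← zmat_mul]; simp only [mul_assoc]

lemma Phi_nmat (r : Rx) :
    Phi ⟨!![1, r; 0, 1], !![1, -r; 0, 1], by simp [Matrix.one_fin_two],
      by simp [Matrix.one_fin_two]⟩ = nmat (algebraMap Kx Kinf (algebraMap Rx Kx r)) := by
  apply GL_ext2 <;> simp [Matrix.GeneralLinearGroup.map]

lemma Phi_smat :
    Phi ⟨!![0, 1; 1, 0], !![0, 1; 1, 0], by simp [Matrix.one_fin_two],
      by simp [Matrix.one_fin_two]⟩ = smat := by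
  apply GL_ext2 <;> simp [Matrix.GeneralLinearGroup.map]

lemma nmat_add {F : Type} [Field F] (x y : F) : (nmat (x + y) : GL (Fin 2) F) = nmat x * nmat y := by
  apply Units.ext
  ext i j
  fin_cases i <;> fin_cases j <;> simp [Matrix.mul_apply, Fin.sum_univ_two, add_comm]

lemma good_amat (n : ℕ) : Good (amat (pinf⁻¹ ^ n)) := by
  refine ⟨1, n, 1, (GO Kinf).one_mem, 1, ?_⟩
  have h1 : (zmat (1 : Kinfˣ) : GL (Fin 2) Kinf) = 1 := by
    apply GL_ext2 <;> simp
  rw [h1]; simp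

lemma vT (hpinf : Valued.v (pinf : Kinf) = WithZero.exp (-1 : ℤ)) (m : ℤ) :
    Valued.v (((pinf⁻¹ ^ m : Kinfˣ)) : Kinf) = WithZero.exp m := by
  rw [Units.val_zpow_eq_zpow_val, Units.val_inv_eq_inv_val, map_zpow₀, map_inv₀, hpinf,
    ← WithZero.exp_neg, neg_neg, ← WithZero.exp_zsmul]
  simp

lemma exists_unit_split (hpinf : Valued.v (pinf : Kinf) = WithZero.exp (-1 : ℤ)) (a : Kinfˣ) :
    ∃ (m : ℤ) (u : Kinfˣ), Valued.v (u : Kinf) = 1 ∧ a = pinf⁻¹ ^ m * u ∧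
      Valued.v (a : Kinf) = WithZero.exp m := by
  have ha : Valued.v (a : Kinf) ≠ 0 := by simp
  refine ⟨WithZero.log (Valued.v (a : Kinf)),
    (pinf⁻¹ ^ (WithZero.log (Valued.v (a : Kinf))))⁻¹ * a, ?_, ?_, ?_⟩
  · rw [Units.val_mul, map_mul, Units.val_inv_eq_inv_val, map_inv₀, vT hpinf,
      WithZero.exp_log ha]
    exact inv_mul_cancel₀ ha
  · simp
  · rw [WithZero.exp_log ha]

lemma case_int (m : ℤ) (x : Kinf) (hx : Valued.v x ≤ Valued.v (((pinf⁻¹ ^ m : Kinfˣ)) : Kinf)) :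
    ∃ k ∈ GO Kinf, nmat x * amat (pinf⁻¹ ^ m) = amat (pinf⁻¹ ^ m) * k := by
  refine ⟨nmat ((((pinf⁻¹ ^ m : Kinfˣ)) : Kinf)⁻¹ * x), nmat_mem ?_, ?_⟩
  · rw [map_mul, map_inv₀]
    have h0 : (0 : ℤᵐ⁰) < Valued.v (((pinf⁻¹ ^ m : Kinfˣ)) : Kinf) :=
      (Valuation.pos_iff _).mpr (Units.ne_zero _)
    rw [inv_mul_le_iff₀ h0, mul_one]
    exact hx
  · generalize (pinf⁻¹ ^ m : Kinfˣ) = a
    apply GL_ext2 <;> simp [Matrix.mul_apply, Fin.sum_univ_two]

lemma good_zpow (m : ℤ) : Good (amat (pinf⁻¹ ^ m)) := by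
  rcases le_total 0 m with h | h
  · obtain ⟨n, rfl⟩ := Int.eq_ofNat_of_zero_le h
    rw [zpow_natCast]
    exact good_amat n
  · obtain ⟨n, hn⟩ := Int.eq_ofNat_of_zero_le (neg_nonneg.mpr h)
    have e : amat (pinf⁻¹ ^ m) = Phi ⟨!![0, 1; 1, 0], !![0, 1; 1, 0], by simp [Matrix.one_fin_two],
      by simp [Matrix.one_fin_two]⟩ * (amat (pinf⁻¹ ^ n) * smat * zmat (pinf⁻¹ ^ m)) := by
      rw [Phi_smat]
      have h1 : (pinf⁻¹ ^ n : Kinfˣ) = (pinf⁻¹ ^ m)⁻¹ := by
        rw [← zpow_natCast, ← _root_.zpow_neg, hn]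
      rw [h1]
      generalize (pinf⁻¹ ^ m : Kinfˣ) = a
      apply GL_ext2 <;> simp [Matrix.mul_apply, Fin.sum_univ_two]
    rw [e]
    exact Good.left _ (((good_amat n).right smat_mem).scal _)

lemma good_step (hpinf : Valued.v (pinf : Kinf) = WithZero.exp (-1 : ℤ))
    (happ : ∀ x : Kinf, ∃ r : Rx, Valued.v (x - algebraMap Kx Kinf (algebraMap Rx Kx r)) < 1) :
    ∀ (N : ℕ) (m : ℤ) (x : Kinf), (-m).toNat ≤ N → Good (nmat x * amat (pinf⁻¹ ^ m)) := by
  intro N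
  induction N with
  | zero =>
    intro m x hm
    obtain ⟨r, hr⟩ := happ x
    have e : nmat x = Phi ⟨!![1, r; 0, 1], !![1, -r; 0, 1], by simp [Matrix.one_fin_two],
      by simp [Matrix.one_fin_two]⟩ * nmat (x - algebraMap Kx Kinf (algebraMap Rx Kx r)) := by
      rw [Phi_nmat, ← nmat_add]; congr 1; ring
    rw [e, mul_assoc]
    apply Good.left
    have h1 : Valued.v (x - algebraMap Kx Kinf (algebraMap Rx Kx r)) ≤
        Valued.v (((pinf⁻¹ ^ m : Kinfˣ)) : Kinf) := by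
      rw [vT hpinf]
      refine hr.le.trans ?_
      rw [← WithZero.exp_zero, WithZero.exp_le_exp]
      omega
    obtain ⟨k, hk, ek⟩ := case_int m _ h1
    rw [ek]
    exact (good_zpow m).right hk
  | succ N ih =>
    intro m x hm
    obtain ⟨r, hr⟩ := happ x
    have e : nmat x = Phi ⟨!![1, r; 0, 1], !![1, -r; 0, 1], by simp [Matrix.one_fin_two],
      by simp [Matrix.one_fin_two]⟩ * nmat (x - algebraMap Kx Kinf (algebraMap Rx Kx r)) := by
      rw [Phi_nmat, ← nmat_add]; congr 1; ring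
    rw [e, mul_assoc]
    apply Good.left
    set y := x - algebraMap Kx Kinf (algebraMap Rx Kx r) with hy
    rcases le_or_gt (Valued.v y) (Valued.v (((pinf⁻¹ ^ m : Kinfˣ)) : Kinf)) with h1 | h1
    · obtain ⟨k, hk, ek⟩ := case_int m _ h1
      rw [ek]
      exact (good_zpow m).right hk
    · have hy0 : y ≠ 0 := by
        intro h; rw [h, map_zero] at h1; exact not_lt_zero h1
      apply Good.left_iff ⟨!![0, 1; 1, 0], !![0, 1; 1, 0], by simp [Matrix.one_fin_two],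
        by simp [Matrix.one_fin_two]⟩
      rw [Phi_smat]
      obtain ⟨l, u, hu, eu, vl⟩ := exists_unit_split hpinf (Units.mk0 y hy0)
      have hlm : m < l := by
        rw [vT hpinf] at h1
        rw [Units.val_mk0] at vl
        rwa [vl, WithZero.exp_lt_exp] at h1
      have hl0 : l < 0 := by
        rw [Units.val_mk0] at vl
        rwa [vl, ← WithZero.exp_zero, WithZero.exp_lt_exp] at hr
      have e2 : smat * (nmat y * amat (pinf⁻¹ ^ m)) =
          nmat (y⁻¹) * amat (pinf⁻¹ ^ (m - 2 * l)) * amat (-(u ^ 2)⁻¹) *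
            lmat ((((pinf⁻¹ ^ m : Kinfˣ)) : Kinf) * y⁻¹) * zmat (Units.mk0 y hy0) := by
        have h3 : amat (pinf⁻¹ ^ (m - 2 * l)) * amat (-(u ^ 2)⁻¹) =
            (amat (-(pinf⁻¹ ^ m) * (Units.mk0 y hy0 ^ 2)⁻¹) : GL (Fin 2) Kinf) := by
          rw [amat_mul, eu]
          congr 1
          rw [_root_.zpow_sub, _root_.zpow_mul', mul_pow, ← zpow_natCast (pinf⁻¹ ^ l) 2]
          simp [mul_comm, mul_left_comm, mul_assoc]
        rw [mul_assoc (nmat y⁻¹), h3]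
        generalize (pinf⁻¹ ^ m : Kinfˣ) = a
        apply GL_ext2 <;> simp [Matrix.mul_apply, Fin.sum_univ_two, coe_lmat] <;>
          (field_simp; (try ring_nf); (try simp))
      rw [e2]
      apply Good.scal
      apply Good.right _ (lmat_mem _)
      · apply Good.right _ (amat_mem _)
        · apply ih
          omega
        · simp [Valuation.map_neg, hu]
      · rw [map_mul, map_inv₀]
        rw [mul_inv_le_iff₀ (by rw [zero_lt_iff]; simpa using hy0), one_mul]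
        exact h1.le

theorem half_line
    (happ : ∀ x : Kinf, ∃ r : Rx, Valued.v (x - algebraMap Kx Kinf (algebraMap Rx Kx r)) < 1)
    (hpinf : Valued.v (pinf : Kinf) = WithZero.exp (-1 : ℤ))
    (g : GL (Fin 2) Kinf) : ∃ γ : GL (Fin 2) Rx, ∃ n : ℕ, ∃ k ∈ GO Kinf,
    ∃ z : Kinfˣ, g = Matrix.GeneralLinearGroup.map
      ((algebraMap Kx Kinf).comp (algebraMap Rx Kx)) γ * amat (pinf⁻¹ ^ n) * k * zmat z := by
  obtain ⟨a, d, x, k, hk, e⟩ := iwasawa g
  obtain ⟨m, u, hu, eu, -⟩ := exists_unit_split hpinf (a / d)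
  have h : Good g := by
    rw [e, bmat_eq, eu, ← amat_mul, mul_assoc _ (zmat d), zmat_comm, ← mul_assoc, ← mul_assoc]
    refine Good.scal (Good.right (Good.right ?_ (amat_mem hu)) hk) _
    exact good_step hpinf happ _ m _ le_rfl
  exact h

lemma v_unit_emb (u : Rx) (hu : IsUnit u) :
    Valued.v (((algebraMap Kx Kinf).comp (algebraMap Rx Kx)) u) = 1 := by
  have h0 : u ≠ 0 := hu.ne_zero
  have := v_poly_ne u h0
  rw [Polynomial.natDegree_eq_zero_of_isUnit hu] at this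
  simpa using this

theorem half_line_unique
    (hpinf : Valued.v (pinf : Kinf) = WithZero.exp (-1 : ℤ))
    (γ : GL (Fin 2) Rx) (m n : ℕ) (k : GL (Fin 2) Kinf) (hk : k ∈ GO Kinf)
    (z : Kinfˣ) (h : amat (pinf⁻¹ ^ m) = Matrix.GeneralLinearGroup.map
      ((algebraMap Kx Kinf).comp (algebraMap Rx Kx)) γ * amat (pinf⁻¹ ^ n) * k * zmat z) :
    m = n := by
  set φ := (algebraMap Kx Kinf).comp (algebraMap Rx Kx) with hφ
  have hk' : k⁻¹ ∈ GO Kinf := (GO Kinf).inv_mem hk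
  obtain ⟨ζ, u, hu, eu, vz⟩ := exists_unit_split hpinf z
  -- the matrix of `γ`
  have e1 : amat (pinf⁻¹ ^ m) * zmat z⁻¹ * k⁻¹ * amat (pinf⁻¹ ^ n)⁻¹ =
      Matrix.GeneralLinearGroup.map φ γ := by
    rw [h]
    have h2 : (zmat z * zmat z⁻¹ : GL (Fin 2) Kinf) = 1 := by
      apply GL_ext2 <;> simp [Matrix.mul_apply, Fin.sum_univ_two]
    have h3 : (amat (pinf⁻¹ ^ n) * amat (pinf⁻¹ ^ n)⁻¹ : GL (Fin 2) Kinf) = 1 := by
      rw [amat_mul, mul_inv_cancel]
      apply GL_ext2 <;> simp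
    rw [mul_assoc _ (zmat z), h2, mul_one, mul_assoc _ k, mul_inv_cancel, mul_one, mul_assoc, h3,
      mul_one]
  have hz : Valued.v ((z : Kinf))⁻¹ = WithZero.exp (-ζ) := by
    rw [map_inv₀, vz, WithZero.exp_neg]
  have vT' : ∀ n : ℕ, Valued.v (((pinf⁻¹ ^ n : Kinfˣ)) : Kinf) = WithZero.exp (n : ℤ) := by
    intro n
    rw [← zpow_natCast, vT hpinf]
  have vTi : ∀ n : ℕ, Valued.v ((((pinf⁻¹ ^ n : Kinfˣ))⁻¹ : Kinfˣ) : Kinf) =
      WithZero.exp (-(n : ℤ)) := by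
    intro n
    rw [Units.val_inv_eq_inv_val, map_inv₀, vT', WithZero.exp_neg]
  have hdet : Valued.v (φ ((γ : Matrix (Fin 2) (Fin 2) Rx).det)) = 1 :=
    v_unit_emb _ (γ.det.isUnit)
  have hζ : 2 * ζ = m - n := by
    have h4 : Valued.v ((amat (pinf⁻¹ ^ m) * zmat z⁻¹ * k⁻¹ * amat (pinf⁻¹ ^ n)⁻¹ :
        GL (Fin 2) Kinf) : Matrix (Fin 2) (Fin 2) Kinf).det = 1 := by
      rw [e1]
      rw [← hdet]
      congr 1
      rw [RingHom.map_det]
      rfl
    rw [Units.val_mul, Units.val_mul, Units.val_mul, Matrix.det_mul, Matrix.det_mul,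
      Matrix.det_mul, map_mul, map_mul, map_mul, hk'.2] at h4
    simp only [coe_amat, coe_zmat, Matrix.det_fin_two_of, mul_zero, sub_zero, mul_one, map_mul,
      vT', Units.val_inv_eq_inv_val, hz] at h4
    rw [map_inv₀, vT', ← WithZero.exp_neg, ← WithZero.exp_add, ← WithZero.exp_add,
      ← WithZero.exp_add, ← WithZero.exp_zero] at h4
    have := WithZero.exp_injective h4
    omega
  have ent : ∀ i j, Valued.v (φ ((γ : Matrix (Fin 2) (Fin 2) Rx) i j)) ≤
      WithZero.exp ((if i = 0 then (m : ℤ) else 0) - ζ - (if j = 0 then (n : ℤ) else 0)) := by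
    intro i j
    have h5 : φ ((γ : Matrix (Fin 2) (Fin 2) Rx) i j) =
        (if i = 0 then (((pinf⁻¹ ^ m : Kinfˣ)) : Kinf) else 1) * (z : Kinf)⁻¹ *
        ((k⁻¹ : GL (Fin 2) Kinf) : Matrix (Fin 2) (Fin 2) Kinf) i j *
        (if j = 0 then ((((pinf⁻¹ ^ n : Kinfˣ))⁻¹ : Kinfˣ) : Kinf) else 1) := by
      have h6 : φ ((γ : Matrix (Fin 2) (Fin 2) Rx) i j) =
        ((amat (pinf⁻¹ ^ m) * zmat z⁻¹ * k⁻¹ * amat (pinf⁻¹ ^ n)⁻¹ :
        GL (Fin 2) Kinf) : Matrix (Fin 2) (Fin 2) Kinf) i j := by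
        rw [e1]; rfl
      rw [h6]
      generalize k⁻¹ = kk
      generalize pinf⁻¹ ^ m = a
      generalize (pinf⁻¹ ^ n)⁻¹ = b
      fin_cases i <;> fin_cases j <;>
        simp [Matrix.mul_apply, Fin.sum_univ_two, Matrix.vecMul, dotProduct]
    have hkk := hk'.1 i j
    have h7 : Valued.v (if i = 0 then (((pinf⁻¹ ^ m : Kinfˣ)) : Kinf) else 1) =
        WithZero.exp (if i = 0 then (m : ℤ) else 0) := by
      split_ifs
      · exact vT' m
      · simp
    have h8 : Valued.v (if j = 0 then ((((pinf⁻¹ ^ n : Kinfˣ))⁻¹ : Kinfˣ) : Kinf) else 1) =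
        WithZero.exp (-(if j = 0 then (n : ℤ) else 0)) := by
      split_ifs
      · exact vTi n
      · simp
    rw [h5, map_mul, map_mul, map_mul, h7, h8, hz, sub_eq_add_neg, sub_eq_add_neg,
      WithZero.exp_add, WithZero.exp_add]
    exact mul_le_mul' (mul_le_of_le_one_right' hkk) le_rfl
  have key : ∀ i j, (if i = 0 then (m : ℤ) else 0) - ζ - (if j = 0 then (n : ℤ) else 0) < 0 →
      (γ : Matrix (Fin 2) (Fin 2) Rx) i j = 0 := by
    intro i j hij
    apply poly_eq_zero_of_lt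
    refine (ent i j).trans_lt ?_
    rwa [← WithZero.exp_zero, WithZero.exp_lt_exp]
  have hd0 : (γ : Matrix (Fin 2) (Fin 2) Rx).det ≠ 0 := by
    intro h0
    rw [h0, map_zero, map_zero] at hdet
    exact zero_ne_one hdet
  rcases lt_trichotomy m n with hlt | heq | hgt
  · exfalso
    apply hd0
    rw [Matrix.det_fin_two, key 0 0 (by simp; omega), key 1 0 (by simp; omega)]
    ring
  · exact heq
  · exfalso
    apply hd0
    rw [Matrix.det_fin_two, key 1 0 (by simp; omega), key 1 1 (by simp; omega)]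
    ring

end TH129.BK
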